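import Pool.Agent.Y444.RP.Stm2

/-! Project RP (helper444), block TOP2: the tree space of countable sequences is `T1`, with a Noetherian base of
rank one. -/

set_option autoImplicit false

open Set TopologicalSpace

namespace Pool.Agent.Y457.RP

open Pool.Agent.Helper332.NB
open Pool.Agent.Y444.RP

section

variable {W : Type} [LinearOrder W]

lemma le_refl' (A : Nd W) : A.le A := ⟨le_rfl, fun _ _ => rfl⟩

lemma le_trans' {A B C : Nd W} (h1 : A.le B) (h2 : B.le C) : A.le C :=
  ⟨h1.1.trans h2.1, fun i hi => (h1.2 i hi).trans (h2.2 i (lt_of_lt_of_le hi h1.1))⟩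

lemma eq_of {A B : Nd W} (h1 : A.le B) (h2 : A.len = B.len) : A = B := by
  apply Subtype.ext
  apply Prod.ext
  · exact h2
  · funext i
    by_cases hi : i < A.len
    · exact h1.2 i hi
    · have h3 : A.len ≤ i := not_lt.1 hi
      have h4 : B.len ≤ i := h2 ▸ h3
      have h5 : A.1.2 i = 0 := A.2 i h3
      have h6 : B.1.2 i = 0 := B.2 i h4
      rw [h5, h6]

lemma mem_pt {y : Xs W} {A : Nd W} (h : y ∈ ({((A, true) : Nd W × Bool)} : Set (Xs W))) :
    y = ((A, true) : Nd W × Bool) := h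

lemma pt_mem (A : Nd W) : ((A, true) : Nd W × Bool) ∈ ({((A, true) : Nd W × Bool)} : Set (Xs W)) :=
  Set.mem_singleton (α := Xs W) _

lemma mem_self (A : Nd W) (n : ℕ) : ((A, false) : Xs W) ∈ Nb A n := ⟨le_refl' A, Or.inl rfl⟩

lemma Nb_mono (A : Nd W) {n m : ℕ} (h : n ≤ m) : Nb A m ⊆ Nb A n := by
  rintro x ⟨h1, h2⟩
  refine ⟨h1, ?_⟩
  rcases h2 with h2 | ⟨h2, h3⟩
  · exact Or.inl h2
  · exact Or.inr ⟨h2, h.trans h3⟩

/-- a neighbourhood with an extension -/
lemma Nb_sub {A C : Nd W} {n : ℕ} (h1 : A.le C) (h2 : A.len < C.len) (h3 : n ≤ C.val A.len) (m : ℕ) :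
    Nb C m ⊆ Nb A n := by
  rintro x ⟨h4, -⟩
  refine ⟨le_trans' h1 h4, Or.inr ⟨lt_of_lt_of_le h2 h4.1, ?_⟩⟩
  have h5 : C.val A.len = x.1.val A.len := h4.2 _ h2
  rw [← h5]
  exact h3

lemma Nb_inter {A C : Nd W} {n m : ℕ} (h : ((C, false) : Xs W) ∈ Nb A n) (hnm : n ≤ m) :
    Nb C m ⊆ Nb A n := by
  obtain ⟨h1, h2⟩ := h
  rcases h2 with h2 | ⟨h2, h3⟩
  · have h4 : C = A := congrArg Prod.fst h2
    rw [h4]
    exact Nb_mono A hnm
  · exact Nb_sub h1 h2 h3 m

/-- comparable nodes -/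
lemma comp {A A' C : Nd W} (h1 : A.le C) (h2 : A'.le C) (h : A.len ≤ A'.len) : A.le A' :=
  ⟨h, fun i hi => (h1.2 i hi).trans (h2.2 i (lt_of_lt_of_le hi h)).symm⟩

lemma rank_aux {A A' : Nd W} {n n' : ℕ} {x : Xs W} (h1 : x ∈ Nb A n) (h2 : x ∈ Nb A' n')
    (h : A.len ≤ A'.len) : Nb A n ⊆ Nb A' n' ∨ Nb A' n' ⊆ Nb A n := by
  have hle := comp h1.1 h2.1 h
  rcases h.eq_or_lt with he | hlt
  · have hA := eq_of hle he
    subst hA
    rcases le_total n n' with h3 | h3
    · exact Or.inr (Nb_mono A h3)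
    · exact Or.inl (Nb_mono A h3)
  · right
    have h3 : A.len < x.1.len := lt_of_lt_of_le hlt h2.1.1
    have h4 : n ≤ x.1.val A.len := by
      rcases h1.2 with h5 | h5
      · exfalso
        rw [h5] at h3
        exact lt_irrefl _ h3
      · exact h5.2
    refine Nb_sub hle hlt ?_ n'
    have h5 : A'.val A.len = x.1.val A.len := h2.1.2 _ hlt
    rw [h5]
    exact h4

theorem rank : RankOne (Bs W) := by
  intro x U hU V hV hxU hxV
  rcases hU with ⟨A, n, rfl⟩ | ⟨A, rfl⟩
  · rcases hV with ⟨A', n', rfl⟩ | ⟨A', rfl⟩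
    · rcases le_total A.len A'.len with h | h
      · exact rank_aux hxU hxV h
      · exact (rank_aux hxV hxU h).symm
    · right
      rintro y hy
      have e1 := mem_pt hy
      have e2 := mem_pt hxV
      rw [e1, ← e2]
      exact hxU
  · left
    rintro y hy
    have e1 := mem_pt hy
    have e2 := mem_pt hxU
    rw [e1, ← e2]
    exact hxV

lemma isOpen_Nb (A : Nd W) (n : ℕ) : IsOpen (Nb A n) :=
  isOpen_generateFrom_of_mem (Or.inl ⟨A, n, rfl⟩)

lemma isOpen_pt (A : Nd W) : IsOpen ({((A, true) : Nd W × Bool)} : Set (Xs W)) :=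
  isOpen_generateFrom_of_mem (Or.inr ⟨A, rfl⟩)

theorem basis : IsTopologicalBasis (Bs W) where
  exists_subset_inter := by
    rintro U hU V hV x ⟨h1, h2⟩
    rcases x with ⟨C, b⟩
    rcases b with _ | _
    · -- a node
      rcases hU with ⟨A, n, rfl⟩ | ⟨A, rfl⟩
      · rcases hV with ⟨A', n', rfl⟩ | ⟨A', rfl⟩
        · exact ⟨Nb C (max n n'), Or.inl ⟨C, _, rfl⟩, mem_self C _,
            subset_inter (Nb_inter h1 (le_max_left _ _)) (Nb_inter h2 (le_max_right _ _))⟩
        · exact absurd (congrArg (fun z : Nd W × Bool => z.2) (mem_pt h2)) (by simp)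
      · exact absurd (congrArg (fun z : Nd W × Bool => z.2) (mem_pt h1)) (by simp)
    · refine ⟨{((C, true) : Nd W × Bool)}, Or.inr ⟨C, rfl⟩, pt_mem C, ?_⟩
      intro y hy
      rw [mem_pt hy]
      exact ⟨h1, h2⟩
  sUnion_eq := by
    rw [eq_univ_iff_forall]
    rintro ⟨A, b⟩
    rcases b with _ | _
    · exact ⟨Nb A 0, Or.inl ⟨A, 0, rfl⟩, mem_self A 0⟩
    · exact ⟨{((A, true) : Nd W × Bool)}, Or.inr ⟨A, rfl⟩, pt_mem A⟩
  eq_generateFrom := rfl

theorem t1 : T1Space (Xs W) := by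
  rw [t1Space_iff_exists_open]
  rintro ⟨A, b⟩ ⟨B, b'⟩ hne
  rcases b with _ | _
  · by_cases hle : A.le B
    · by_cases hlen : A.len = B.len
      · have hAB := eq_of hle hlen
        subst hAB
        refine ⟨Nb A 0, isOpen_Nb A 0, mem_self A 0, ?_⟩
        rintro ⟨-, h2⟩
        rcases h2 with h2 | ⟨h2, -⟩
        · exact hne h2.symm
        · exact lt_irrefl _ h2
      · refine ⟨Nb A (B.val A.len + 1), isOpen_Nb A _, mem_self A _, ?_⟩
        rintro ⟨-, h2⟩
        rcases h2 with h2 | ⟨-, h2⟩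
        · exact hlen (congrArg (fun z : Nd W × Bool => z.1.len) h2).symm
        · exact absurd h2 (by simp)
    · exact ⟨Nb A 0, isOpen_Nb A 0, mem_self A 0, fun h2 => hle h2.1⟩
  · refine ⟨{((A, true) : Nd W × Bool)}, isOpen_pt A, pt_mem A, ?_⟩
    intro h
    exact hne (mem_pt h).symm

/-- every member of the base is nonempty -/
lemma nonempty_of {s : Set (Xs W)} (h : s ∈ Bs W) : s.Nonempty := by
  rcases h with ⟨A, n, rfl⟩ | ⟨A, rfl⟩
  · exact ⟨_, mem_self A n⟩
  · exact ⟨_, pt_mem A⟩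

theorem noeth (hW : WellFoundedLT W) : Noetherian (Bs W) := by
  rintro ⟨G, hG, hinc⟩
  have h1 : ∀ k, ∃ (A : Nd W) (n : ℕ), G (k + 1) = Nb A n := by
    intro k
    rcases hG (k + 1) with h | ⟨A, h⟩
    · exact h
    · exfalso
      have h2 := hinc k
      rw [h] at h2
      have h3 : G k = ∅ := ssubset_singleton_iff.1 h2
      exact (nonempty_of (hG k)).ne_empty h3
  choose A n hGA using h1
  have hstep : ∀ k, (A (k + 1)).le (A k) := by
    intro k
    have h1 : ((A k, false) : Xs W) ∈ G (k + 1) := by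
      rw [hGA k]
      exact mem_self _ _
    have h2 := (hinc (k + 1)).1 h1
    rw [hGA (k + 1)] at h2
    exact h2.1
  have hchain : ∀ i j, i ≤ j → (A j).le (A i) := by
    intro i j hij
    induction j, hij using Nat.le_induction with
    | base => exact le_refl' _
    | succ j _ ih => exact le_trans' (hstep j) ih
  -- a minimal length
  obtain ⟨m, ⟨j, hj⟩, hmin⟩ := hW.wf.has_min (range fun k => (A k).len) ⟨_, 0, rfl⟩
  have heq : ∀ k, j ≤ k → A k = A j := by
    intro k hk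
    have h2 := hchain j k hk
    apply eq_of h2
    apply le_antisymm h2.1
    have h3 := hmin (A k).len ⟨k, rfl⟩
    rw [← hj] at h3
    exact not_lt.1 h3
  have hdec : ∀ k, j ≤ k → n (k + 1) < n k := by
    intro k hk
    by_contra hcon
    push Not at hcon
    apply (hinc (k + 1)).2
    rw [hGA k, hGA (k + 1), heq k hk, heq (k + 1) (by omega)]
    exact Nb_mono _ hcon
  have hfin : ∀ i, n (j + i) + i ≤ n j := by
    intro i
    induction i with
    | zero => simp
    | succ i ih =>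
      have := hdec (j + i) (by omega)
      have e : j + (i + 1) = j + i + 1 := by omega
      rw [e]
      omega
  have := hfin (n j + 1)
  omega

end

theorem t : Top2Stm := fun _ _ h => ⟨t1, basis, noeth h.1, rank⟩

end Pool.Agent.Y457.RP
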